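import Mathlib

namespace Pool.Agent.Results.MP_31dd60_nt.Goldbach

/-- A semiprime: a product of two primes, not necessarily distinct. -/
def Semiprime (m : ℕ) : Prop := ∃ p q : ℕ, p.Prime ∧ q.Prime ∧ m = p * q

theorem tri_succ (c : ℕ) : (c + 1) * (c + 1 + 1) / 2 = c * (c + 1) / 2 + (c + 1) := by
  have : (c + 1) * (c + 1 + 1) = c * (c + 1) + (c + 1) * 2 := by ring
  rw [this, Nat.add_mul_div_right _ _ (by norm_num)]

theorem exists_index (i : ℕ) : ∃ c s, s ≤ c ∧ i = c * (c + 1) / 2 + s := by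
  induction i with
  | zero => exact ⟨0, 0, le_rfl, by simp⟩
  | succ i ih =>
    obtain ⟨c, s, hs, rfl⟩ := ih
    rcases hs.lt_or_eq with h | rfl
    · exact ⟨c, s + 1, h, by ring⟩
    · exact ⟨s + 1, 0, Nat.zero_le _, by rw [tri_succ]; ring⟩

theorem val_eq (s t : ℕ) : (s + t + 1) ^ 2 - (s + t - s) ^ 2 = (s + 1) * (s + 2 * t + 1) := by
  rw [Nat.add_sub_cancel_left]
  apply Nat.sub_eq_of_eq_add
  ring

theorem aux {u v p q : ℕ} (hv : 2 ≤ v) (hp : p.Prime) (hq : q.Prime) (h : u * v = p * q)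
    (hpu : p ∣ u) : u.Prime ∧ v.Prime := by
  obtain ⟨w, rfl⟩ := hpu
  have h1 : w * v = q := Nat.eq_of_mul_eq_mul_left hp.pos (by rw [← h]; ring)
  have h2 : v = q := by
    rcases (Nat.dvd_prime hq).1 (Dvd.intro_left w h1) with h3 | h3
    · omega
    · exact h3
  have h3 : w = 1 := by
    rw [h2] at h1
    exact Nat.eq_of_mul_eq_mul_right hq.pos (by rw [h1, one_mul])
  rw [h3, mul_one, h2]
  exact ⟨hp, hq⟩

theorem primes_of_semiprime {u v : ℕ} (hu : 2 ≤ u) (hv : 2 ≤ v) (h : Semiprime (u * v)) :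
    u.Prime ∧ v.Prime := by
  obtain ⟨p, q, hp, hq, h⟩ := h
  rcases (Nat.Prime.dvd_mul hp).1 (Dvd.intro q h.symm) with h1 | h1
  · exact aux hv hp hq h h1
  · exact (aux hu hp hq (by rw [← h]; ring) h1).symm

theorem result (a : ℕ → ℕ)
    (ha : ∀ c s : ℕ, s ≤ c → a (c * (c + 1) / 2 + s) = (c + 1) ^ 2 - (c - s) ^ 2) :
    (∀ n i j : ℕ, 1 ≤ n → a i = 2 * n + 1 → a j = 2 * n + 3 → j = i + n + 1 →
      ∃ k, i < k ∧ k < j ∧ Semiprime (a k)) ↔
    (∀ m : ℕ, 2 ≤ m → ∃ p q : ℕ, p.Prime ∧ q.Prime ∧ p + q = 2 * m) := by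
  have hb : ∀ s t : ℕ, a ((s + t) * (s + t + 1) / 2 + s) = (s + 1) * (s + 2 * t + 1) := by
    intro s t
    rw [ha _ _ (Nat.le_add_right s t), val_eq]
  constructor
  · intro h m hm
    obtain ⟨n, rfl⟩ : ∃ n, m = n + 1 := ⟨m - 1, by omega⟩
    have h1 : a (n * (n + 1) / 2) = 2 * n + 1 := by simpa using hb 0 n
    have h2 : a (n * (n + 1) / 2 + n + 1) = 2 * n + 3 := by
      have := hb 0 (n + 1)
      simp only [zero_add, add_zero, one_mul] at this
      rw [tri_succ, ← add_assoc] at this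
      rw [this]
      ring
    obtain ⟨k, hk1, hk2, hk⟩ := h n _ _ (by omega) h1 h2 rfl
    obtain ⟨s, rfl⟩ := Nat.exists_eq_add_of_le hk1.le
    obtain ⟨t, rfl⟩ := Nat.exists_eq_add_of_le (show s ≤ n by omega)
    rw [hb] at hk
    obtain ⟨hp, hq⟩ := primes_of_semiprime (by omega) (by omega) hk
    exact ⟨_, _, hp, hq, by ring⟩
  · intro h n i j hn hi _ hj
    have key : ∀ c, 1 ≤ c → ∃ s, 1 ≤ s ∧ s ≤ c ∧ Semiprime (a (c * (c + 1) / 2 + s)) := by
      intro c hc
      have main : ∀ p q : ℕ, p.Prime → q.Prime → p + q = 2 * (c + 1) → p ≤ q →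
          ∃ s, 1 ≤ s ∧ s ≤ c ∧ Semiprime (a (c * (c + 1) / 2 + s)) := by
        intro p q hp hq hpq hle
        have h2 := hp.two_le
        obtain ⟨s, rfl⟩ : ∃ s, p = s + 1 := ⟨p - 1, by omega⟩
        obtain ⟨t, rfl⟩ := Nat.exists_eq_add_of_le (show s ≤ c by omega)
        refine ⟨s, by omega, by omega, s + 1, q, hp, hq, ?_⟩
        rw [hb]
        congr 1
        omega
      obtain ⟨p, q, hp, hq, hpq⟩ := h (c + 1) (by omega)
      rcases le_total p q with hle | hle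
      · exact main p q hp hq hpq hle
      · exact main q p hq hp (by omega) hle
    obtain ⟨c, s, hs, rfl⟩ := exists_index i
    obtain ⟨t, rfl⟩ := Nat.exists_eq_add_of_le hs
    rw [hb] at hi
    rcases s with _ | _ | s
    · simp only [zero_add, one_mul] at hi hj ⊢
      have ht : t = n := by omega
      subst ht
      obtain ⟨s, h1, h2, h3⟩ := key t hn
      exact ⟨_, by omega, by omega, h3⟩
    · exfalso
      omega
    · obtain ⟨u, h1, h2, h3⟩ := key (s + 1 + 1 + t + 1) (by omega)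
      refine ⟨_, ?_, ?_, h3⟩
      · rw [tri_succ]
        omega
      · rw [tri_succ, hj]
        have : 2 * (s + 1 + 1 + t) + 2 ≤ s + 1 + 1 + n := by nlinarith
        omega

end Pool.Agent.Results.MP_31dd60_nt.Goldbach
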